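import Pool.Agent.Lib.P1ae5.ZFamD

/-!
The set of extreme points of `N_A` is not closed: an explicit one-parameter family of extreme points
which converges locally uniformly to an element of `N_A` that is not an extreme point.
-/

open Metric Filter Topology Pool.Agent.P1ae5

namespace Pool.Agent.Results.MP_1ae5d5_an.ExtremeNotClosed

/-- Let `n = k + 2 ≥ 6` and let `A` be a linear operator on `C^n` with `Re <Az,z> = ‖z‖^2` for all
`z` (for instance `A = 1`). For a real number `t` let `h_t` be the map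
`h_t(z) = (1+q)/(1-q) z + V_t(z)/(1-q) + (A z - z)`, `q = z_0^2 + ... + z_{n-1}^2`,
`V_t(z) = (z_0^2 + q, z_0 z_1 - i w.w, (z_0 + i z_1) w + i (z_0 K_t w + z_1 K'_t w))`,
`z = (z_0,z_1,w)`, with the real skew matrices `K_t = KT k t`, `K'_t = KU k t`. Then `h_t` is an
extreme point of `N_A` for `0 < t < π/2`, `h_0` is in `N_A` and is not an extreme point of `N_A`, and
`h_t → h_0` as `t → 0`, uniformly on `‖z‖ ≤ r` for every `r < 1`. In particular the set of extreme
points of `N_A` is not closed. -/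
theorem result (k : ℕ) (hk : 4 ≤ k)
    (A : EuclideanSpace ℂ (Fin (k + 2)) →L[ℂ] EuclideanSpace ℂ (Fin (k + 2)))
    (hA : ∀ z, (St.sp (A z) z).re = ‖z‖ ^ 2) :
    (∀ t : ℝ, 0 < t → t < Real.pi / 2 → St.IsExtr A (St.HZ A (St.KT k t) (St.KU k t))) ∧
    St.HZ A (St.KT k 0) (St.KU k 0) ∈ St.FamN A ∧
    ¬ St.IsExtr A (St.HZ A (St.KT k 0) (St.KU k 0)) ∧
    ∀ r : ℝ, r < 1 → TendstoUniformlyOn (fun t : ℝ => St.HZ A (St.KT k t) (St.KU k t))
      (St.HZ A (St.KT k 0) (St.KU k 0)) (𝓝 0) (closedBall 0 r) :=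
  fam_main hk hA

end Pool.Agent.Results.MP_1ae5d5_an.ExtremeNotClosed
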