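import Pool.Agent.Lib.P1ae5.AllFace
import Pool.Agent.Lib.P1ae5.ZExplicit
import Pool.Agent.Lib.P1ae5.Bridge
import Pool.Agent.Lib.P1ae5.StmtAll

/-!
Extreme points of `N_A` in every dimension: an explicit finite dimensional face of `N_A`, and
explicit extreme points when the Hermitian part of `A` is the identity.
-/

open Metric Pool.Agent.P1ae5

namespace Pool.Agent.Results.MP_1ae5d5_an.FaceAllDim

lemma herm_eq {n : ℕ} {A : Cn n →L[ℂ] Cn n} (hA : ∀ z : Cn n, (ip (A z) z).re = ‖z‖ ^ 2)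
    (z : Cn n) : herm A z = z := by
  have hS : ∀ z : Cn n, inner ℂ (herm A z - z) z = (0 : ℂ) := by
    intro z
    have h1 : inner ℂ (herm A z) z = ((ip (A z) z).re : ℂ) := by
      unfold herm
      rw [ContinuousLinearMap.smul_apply, ContinuousLinearMap.add_apply, inner_smul_left,
        inner_add_left, ContinuousLinearMap.adjoint_inner_left]
      unfold ip
      rw [← inner_conj_symm (A z) z]
      have h2 := Complex.add_conj (inner ℂ z (A z))
      rw [add_comm] at h2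
      rw [h2]
      have h5 : (starRingEnd ℂ) (2 : ℂ) = 2 := by
        have := Complex.conj_ofReal 2
        simpa using this
      simp only [one_div, map_inv₀, h5]
      push_cast
      ring
    rw [inner_sub_left, h1, hA z, inner_self_eq_norm_sq_to_K]
    push_cast
    exact sub_self _
  have h3 : (herm A - ContinuousLinearMap.id ℂ (Cn n)).toLinearMap = 0 := by
    rw [← inner_map_self_eq_zero]
    intro x
    exact hS x
  have h4 := congrArg (fun T : Cn n →ₗ[ℂ] Cn n => T z) h3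
  simp only [ContinuousLinearMap.coe_coe, ContinuousLinearMap.sub_apply,
    ContinuousLinearMap.id_apply, LinearMap.zero_apply] at h4
  exact sub_eq_zero.1 h4

lemma HZ_eq {k : ℕ} {A : Cn (k + 2) →L[ℂ] Cn (k + 2)}
    (hA : ∀ z : Cn (k + 2), (ip (A z) z).re = ‖z‖ ^ 2) (K K' : Matrix (Fin k) (Fin k) ℝ) :
    St.HZ A K K' = hZ A K K' := by
  funext z
  unfold hZ hLJ
  rw [VLJ_JZ, herm_eq hA]
  rfl

/-- Let `n ≥ 2`, `A` a linear operator on `C^n` with `Re <Az,z> > 0` for `z ≠ 0`, `D` its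
Hermitian part, `q(z) = z_1^2 + ... + z_n^2`, and for `l ∈ R^n` and a symmetric real bilinear map
`J` with `x.J(x,x) = 0` let
`H_{l,J}(z) = (1+q)/(1-q) D z + ((l.z/2) z + (q/2) l + i J(z,z))/(1-q) + (A - D) z`.
(1) `H_{l,J} ∈ N_A` iff `(l,J)` is in the convex body `K_A`: for orthonormal real `X, Y` and
`|ξ|^2+|η|^2 = 1`, `|ξ conj β(X,Y) + η conj β(Y,X)| ≤ Re <Az,z>`, `z = ξ X + η Y`,
`β(X,Y) = l.X/2 + i J(Y,Y).X`.
(2) `{H_{l,J} : (l,J) ∈ K_A}` is a face of `N_A`.
(3) `H_{l,J}` is an extreme point of `N_A` iff `(l,J)` is an extreme point of `K_A`.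
(4) If `Re <Az,z> = ‖z‖^2` for all `z` (for instance `A = 1`) and `K, K'` are skew-symmetric
real matrices of size `k = n - 2`, then `h_Z(z) = (1+q)/(1-q) z + V(z)/(1-q) + (A z - z)`,
`V(z) = (z_0^2 + q, z_0 z_1 - i w.w, (z_0 + i z_1) w + i (z_0 K w + z_1 K' w))`,
`z = (z_0,z_1,w)`, is an extreme point of `N_A` iff `(K,K')` is an extreme point of the convex body
`Z_k` of the pairs with `(Kx.y)^2 + (K'x.y)^2 ≤ 1` for orthonormal real `x, y`.
(5) In particular `h_Z` is an extreme point of `N_A` for the explicit pair `(Ke k, Kf k)`, in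
every dimension `n ≥ 2`. -/
theorem result :
    (∀ n : ℕ, 2 ≤ n → ∀ A : EuclideanSpace ℂ (Fin n) →L[ℂ] EuclideanSpace ℂ (Fin n),
      St.IsPos A →
        (∀ l J, St.IsTg J → (St.HL A l J ∈ St.FamN A ↔ St.InK A l J)) ∧
        St.IsFaceHL A ∧
        (∀ l J, St.IsTg J → (St.IsExtr A (St.HL A l J) ↔ St.IsExtrK A l J))) ∧
    (∀ k : ℕ, ∀ A : EuclideanSpace ℂ (Fin (k + 2)) →L[ℂ] EuclideanSpace ℂ (Fin (k + 2)),
      (∀ z, (St.sp (A z) z).re = ‖z‖ ^ 2) →
        (∀ K K', St.IsSk K K' → (St.IsExtr A (St.HZ A K K') ↔ St.IsExtrZ K K')) ∧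
        St.IsExtr A (St.HZ A (St.Ke k) (St.Kf k))) := by
  refine ⟨?_, ?_⟩
  · intro n hn A hA
    refine ⟨fun l J hJ => hLJ_mem_iff hn hA hJ, ?_, fun l J hJ => all_main hn hA hJ⟩
    intro l J hK g₁ hg1 g₂ hg2 t ht0 ht1 h
    exact all_face2 hn hA hK hg1 hg2 ht0 ht1 h
  · intro k A hA
    have hmain : ∀ K K', St.IsSk K K' → (St.IsExtr A (St.HZ A K K') ↔ St.IsExtrZ K K') := by
      intro K K' hs
      rw [HZ_eq hA]
      exact z_main hA hs
    refine ⟨hmain, ?_⟩
    have hx : St.IsExtrZ (St.Ke k) (St.Kf k) := extr_explicit k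
    exact (hmain _ _ hx.1.1).2 hx

end Pool.Agent.Results.MP_1ae5d5_an.FaceAllDim
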