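import Pool.Agent.Lib.P1ae5.SuppMain
import Pool.Agent.Lib.P1ae5.Bridge
import Pool.Agent.Lib.P1ae5.StmtSupp

/-!
Support points of `N_A` among the averages of the rotations of one map.
-/

open Metric MeasureTheory Pool.Agent.P1ae5

namespace Pool.Agent.Results.MP_1ae5d5_an.SupportAverages

lemma avg_eq {n : ℕ} (μ : Measure ℝ) (H : Cn n → Cn n) : St.avgE μ H = rotAvg μ H := rfl

/-- Let `A` be a linear operator on `C^n` with `Re <Az,z> > 0` for `z ≠ 0`, `H ∈ N_A`, and for a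
probability measure `μ` on the line let `H_μ(z) = ∫ e^{-iθ} H(e^{iθ} z) dμ(θ)`.
(1) `H_μ ∈ N_A`.
(2) If the image of `μ` on the unit circle does not have finite support, then `H_μ` is not a
support point of `N_A`.
(3) If some slice `λ ↦ <H(λu),u>/λ`, `‖u‖ = 1`, of `H` has a finitely supported Herglotz measure,
then `H_μ` is a support point of `N_A` iff the image of `μ` has finite support. -/
theorem result (n : ℕ) (A : EuclideanSpace ℂ (Fin n) →L[ℂ] EuclideanSpace ℂ (Fin n))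
    (hA : St.IsPos A) (H : EuclideanSpace ℂ (Fin n) → EuclideanSpace ℂ (Fin n))
    (hH : H ∈ St.FamN A) (μ : Measure ℝ) (hμ : IsProbabilityMeasure μ) :
    St.avgE μ H ∈ St.FamN A ∧
    (¬ St.IsFinSupp μ → ¬ St.IsSupp A (St.avgE μ H)) ∧
    ((∃ u : EuclideanSpace ℂ (Fin n), ‖u‖ = 1 ∧ St.IsFinSlice H u) →
      (St.IsSupp A (St.avgE μ H) ↔ St.IsFinSupp μ)) := by
  have h2 : ¬ St.IsFinSupp μ → ¬ St.IsSupp A (St.avgE μ H) := fun h =>
    not_support_of_infinite hA hH μ h
  refine ⟨rotAvg_mem hH μ, h2, ?_⟩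
  rintro ⟨u, hu, N, ν, ω, γ, hν, hω, hs⟩
  constructor
  · intro h
    by_contra hc
    exact h2 hc h
  · rintro ⟨S, hS, hae⟩
    exact rotAvg_support hA hH hu ν hν ω hω γ hs μ hS hae

end Pool.Agent.Results.MP_1ae5d5_an.SupportAverages
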