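import Pool.Agent.Lib.P1ae5m.Expl
import Pool.Agent.Lib.P1ae5m.Restr
import Pool.Agent.Lib.P1ae5m.DExt
import Pool.Agent.Lib.P1ae5m.Stmt
import Pool.Agent.Lib.P1ae5.Bridge

/-!
Support points of `N_A`: duality, the criterion by test measures and its consequences.
-/

open Metric MeasureTheory Filter Topology
open Pool.Agent.P1ae5 Pool.Agent.P1ae5.St Pool.Agent.P1ae5m

namespace Pool.Agent.Results.MP_1ae5d5_an.TestMeasures

/-- Let `A` be a linear operator on `C^n` with `Re <Az,z> > 0` for `z ≠ 0`, `D = (A + A^*)/2`.
(1) Let `h ∈ N_A`.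
(1a) If `Λ` is a continuous linear functional and `Re Λ` is not constant on `N_A`, then `h`
maximises `Re Λ` over `N_A` iff there is a finite positive measure `σ` on the unit sphere with
`Λ(v) = -∫ <v(ζ),ζ> dσ(ζ)` for all `v` holomorphic near the closed ball, `v(0) = 0`, `Dv(0) = 0`, and
`∫ Re <h(rζ),ζ> dσ(ζ) → 0` as `r → 1`.
(1b) `h` is a support point iff `∫ Re <h(rζ),ζ> dν(ζ) → 0` for some test measure `ν`, that is a
probability measure on the unit sphere with `|∫ <v(ζ),ζ> dν(ζ)| ≤ C q^k sup ‖v‖`, `q < 1`, for all
homogeneous polynomial maps `v` of degree `k ≥ 2`. If `h` is continuous on the closed ball, then `h`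
is a support point iff some test measure is carried by the zero set of `Re <h(ζ),ζ>`.
(1c) If `liminf ∫ Re <h(rΓ(e^{iθ})),Γ(e^{iθ})> Φ(e^{iθ}) dθ = 0` for a closed analytic transverse
curve `Γ` and an analytic density `Φ`, then `h` is a support point.
(1d) Test measures do not charge peak sets.
(1e) Let `ι : C^m → C^n` be a linear isometry. If the compression `ι^* h ι` is a support point of
`N_{ι^* A ι}`, then `h` is a support point. The converse holds if the set `rzero h` of all unit
vectors `ζ` with `liminf Re <h(rζ),ζ> = 0` is covered by `ι(C^m)` and countably many peak sets; so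
for a support point `h` countably many peak sets do not cover `rzero h` (`m = 0`).
(1f) If `h` commutes with the circle action of weights `w_j ≥ 0` and `ι(C^m)` is the fixed space of
the action, then `h` is a support point iff some point of `rzero h` is not fixed by the action or
`ι^* h ι` is a support point.
(2) Direct sums of maps in `N_{D_j}` belong to `N_A`, are not extreme points if there are at least
two nonzero blocks, and are support points iff one of the summands is. -/
theorem result (n : ℕ) (A : EuclideanSpace ℂ (Fin n) →L[ℂ] EuclideanSpace ℂ (Fin n))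
    (hA : ∀ z, z ≠ 0 → 0 < (sp (A z) z).re) :
    (∀ h ∈ FamN A, Part1a A h ∧ Part1b A h ∧ Part1c A h ∧ Part1d (EuclideanSpace ℂ (Fin n)) ∧
      Part1e A h ∧ Part1f A h) ∧ Part2 A := by
  refine ⟨fun h hh => ⟨fun Λ hΛ hne => duality hA hh hΛ hne,
    ⟨support_iff_expl hA hh, fun hc => support_iff_cont hA hh hc⟩,
    fun R Γ Φ hΓ hΦ hv => support_of_curve hA hh hΓ hΦ hv,
    fun K hK ν hν => peak_null_expl hν hK,
    fun m ι => ⟨cmp_mem ι hh, fun hs => support_of_cmp ι hA hh hs,
      fun K hK hcov hs => cmp_of_support ι hA hh hK hcov hs⟩,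
    fun m ι w heq hι => support_act_iff hA hh heq ι hι⟩, ?_⟩
  intro r d ι D g hι hD hg
  refine ⟨dsum_mem hι hD hg, ?_, fun hs => component_of_support hι hA hD hg hs, ?_⟩
  · rintro ⟨i, j, hij, hi, hj⟩
    exact dsum_not_extreme hι hA hD hg hij hi hj
  · rintro ⟨j, hj⟩
    exact support_of_component hι hA hD hg hj

end Pool.Agent.Results.MP_1ae5d5_an.TestMeasures
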